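import Pool.Agent.W425.GN.Defs

/-! Project GN, part A3: shifts in `s`, ring homomorphisms, operators without derivatives. -/

set_option autoImplicit false

namespace Pool.Agent.W366.GN

open MvPolynomial Pool.Agent.W425.GN

section
variable {n : ℕ} {R : Type} [CommRing R]

/-- the action at an arbitrary value -/
noncomputable def actR (t : R) (φ : MvPolynomial (Fin n) R) :
    MvPolynomial (Sy n) R →ₗ[R] MvPolynomial (Fin n) R :=
  (basisMonomials (Sy n) R).constr R fun m =>
    (t ^ m none) • ((∏ i, X i ^ m (some (Sum.inl i))) *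
      dd (fun i => m (some (Sum.inr i))) φ)

theorem constr_mon {σ N : Type} [AddCommGroup N] [Module R N] (f : (σ →₀ ℕ) → N) (m : σ →₀ ℕ)
    (c : R) : (basisMonomials σ R).constr R f (monomial m c) = c • f m := by
  have h : monomial m c = c • basisMonomials σ R m := by
    rw [coe_basisMonomials, smul_monomial, smul_eq_mul, mul_one]
  rw [h, map_smul, Module.Basis.constr_basis]

theorem actR_mon (t : R) (φ : MvPolynomial (Fin n) R) (m : Sy n →₀ ℕ) (c : R) :
    actR t φ (monomial m c) = c • ((t ^ m none) • ((∏ i, X i ^ m (some (Sum.inl i))) *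
      dd (fun i => m (some (Sum.inr i))) φ)) :=
  constr_mon _ m c

theorem act_eq (P : MvPolynomial (Sy n) R) (s : ℕ) (φ : MvPolynomial (Fin n) R) :
    act P s φ = actR (s : R) φ P := rfl

theorem dd_mon (β : Fin n → ℕ) (w : Fin n →₀ ℕ) (c : R) :
    dd β (monomial w c) = c • monomial (w - Finsupp.equivFunOnFinite.symm β)
      (∏ i, ((w i).descFactorial (β i) : R)) :=
  constr_mon _ w c

theorem actR_X (t : R) (φ : MvPolynomial (Fin n) R) (P : MvPolynomial (Sy n) R) :
    actR t φ (X none * P) = t • actR t φ P := by
  induction P using MvPolynomial.induction_on' with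
  | monomial m c =>
    have h : (X none : MvPolynomial (Sy n) R) * monomial m c =
        monomial (Finsupp.single none 1 + m) c := by
      rw [X, monomial_mul, one_mul]
    rw [h, actR_mon, actR_mon]
    have h0 : ((Finsupp.single (none : Sy n) 1 + m : Sy n →₀ ℕ) none) = 1 + m none := by
      rw [Finsupp.add_apply, Finsupp.single_eq_same]
    have h1 : ∀ v : Fin n ⊕ Fin n, ((Finsupp.single (none : Sy n) 1 + m : Sy n →₀ ℕ) (some v)) = m (some v) := by
      intro v
      rw [Finsupp.add_apply, Finsupp.single_eq_of_ne (by simp), zero_add]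
    simp only [h0, h1]
    rw [pow_add, pow_one, mul_smul, smul_comm c t]
  | add p q hp hq => rw [mul_add, map_add, hp, hq, map_add, smul_add]

theorem actR_Xu (t u : R) (φ : MvPolynomial (Fin n) R) (P : MvPolynomial (Sy n) R) (k : ℕ) :
    actR t φ ((X none + C u) ^ k * P) = (t + u) ^ k • actR t φ P := by
  induction k with
  | zero => simp
  | succ k ih =>
    have e : (X none + C u) ^ (k + 1) * P = X none * ((X none + C u) ^ k * P) +
        u • ((X none + C u) ^ k * P) := by
      rw [MvPolynomial.smul_eq_C_mul]
      ring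
    rw [e, map_add, map_smul, actR_X, ih, ← add_smul, smul_smul, pow_succ]
    congr 1
    ring

/-- the shift -/
noncomputable def shf (n : ℕ) (R : Type) [CommRing R] (u : R) :
    MvPolynomial (Sy n) R →ₐ[R] MvPolynomial (Sy n) R :=
  aeval fun v => Option.elim v (X none + C u) fun v => X (some v)

theorem split (m : Sy n →₀ ℕ) (c : R) : ∃ m' : Sy n →₀ ℕ, m' none = 0 ∧
    (∀ v, m' (some v) = m (some v)) ∧
    (monomial m c : MvPolynomial (Sy n) R) = X none ^ m none * monomial m' c := by
  classical
  refine ⟨m.erase none, Finsupp.erase_same, fun v => Finsupp.erase_ne (by simp), ?_⟩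
  rw [X_pow_eq_monomial, monomial_mul, one_mul, Finsupp.single_add_erase]

theorem shf_mon (u : R) (m : Sy n →₀ ℕ) (hm : m none = 0) (c : R) :
    shf n R u (monomial m c) = monomial m c := by
  unfold shf
  rw [aeval_monomial, monomial_eq, algebraMap_eq]
  congr 1
  refine Finsupp.prod_congr fun v hv => ?_
  cases v with
  | none => rw [Finsupp.mem_support_iff] at hv; exact absurd hm hv
  | some v => rfl

theorem actR_shf (t u : R) (φ : MvPolynomial (Fin n) R) (P : MvPolynomial (Sy n) R) :
    actR t φ (shf n R u P) = actR (t + u) φ P := by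
  induction P using MvPolynomial.induction_on' with
  | monomial m c =>
    obtain ⟨m', h0, h1, h2⟩ := split m c
    have h3 : shf n R u (X none) = X none + C u := by
      unfold shf
      rw [aeval_X]
      rfl
    rw [h2, map_mul, map_pow, h3, shf_mon u m' h0, actR_Xu]
    have h4 := actR_Xu (t + u) 0 φ (monomial m' c) (m none)
    rw [C_0, add_zero, add_zero] at h4
    rw [h4, actR_mon, actR_mon, h0, pow_zero, pow_zero]
  | add p q hp hq => rw [map_add, map_add, hp, hq, map_add]

theorem dd_zero (φ : MvPolynomial (Fin n) R) : dd (fun _ => 0) φ = φ := by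
  induction φ using MvPolynomial.induction_on' with
  | monomial w c =>
    rw [dd_mon]
    have h : (Finsupp.equivFunOnFinite.symm fun _ : Fin n => 0) = (0 : Fin n →₀ ℕ) := by
      ext i
      rfl
    rw [h, tsub_zero, smul_monomial, smul_eq_mul]
    simp
  | add p q hp hq => rw [map_add, hp, hq]

theorem actR_rename (t : R) (φ a : MvPolynomial (Fin n) R) :
    actR t φ (rename (some ∘ Sum.inl) a) = a * φ := by
  classical
  induction a using MvPolynomial.induction_on' with
  | monomial α c =>
    rw [rename_monomial, actR_mon]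
    have hinj : Function.Injective (some ∘ Sum.inl : Fin n → Sy n) :=
      (Option.some_injective _).comp Sum.inl_injective
    have h0 : (Finsupp.mapDomain (some ∘ Sum.inl : Fin n → Sy n) α) none = 0 :=
      Finsupp.mapDomain_of_notMem_range _ _ (by rintro ⟨i, hi⟩; exact absurd hi (by simp))
    have h1 : ∀ i : Fin n, (Finsupp.mapDomain (some ∘ Sum.inl : Fin n → Sy n) α)
        (some (Sum.inl i)) = α i := fun i => Finsupp.mapDomain_apply hinj α i
    have h2 : ∀ i : Fin n, (Finsupp.mapDomain (some ∘ Sum.inl : Fin n → Sy n) α)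
        (some (Sum.inr i)) = 0 := fun i =>
      Finsupp.mapDomain_of_notMem_range _ _ (by rintro ⟨j, hj⟩; exact absurd hj (by simp))
    simp only [h0, h1, h2]
    rw [pow_zero, one_smul, dd_zero, monomial_eq, Finsupp.prod_pow, smul_eq_C_mul, mul_assoc]
  | add p q hp hq => rw [map_add, map_add, hp, hq, add_mul]

theorem act_sy (w : Polynomial (MvPolynomial (Fin n) R)) (s : ℕ) (φ : MvPolynomial (Fin n) R) :
    act (sy w) s φ = w.eval (s : MvPolynomial (Fin n) R) * φ := by
  rw [act_eq]
  induction w using Polynomial.induction_on' with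
  | add p q hp hq => rw [map_add, map_add, hp, hq, Polynomial.eval_add, add_mul]
  | monomial k a =>
    have h1 : sy (Polynomial.monomial k a) = X none ^ k * rename (some ∘ Sum.inl) a := by
      unfold sy
      rw [Polynomial.coe_eval₂RingHom, Polynomial.eval₂_monomial, mul_comm]
      rfl
    have h2 := actR_Xu (s : R) 0 φ (rename (some ∘ Sum.inl) a) k
    rw [C_0, add_zero, add_zero] at h2
    rw [h1, h2, actR_rename, Polynomial.eval_monomial, smul_eq_C_mul, map_pow, map_natCast]
    ring

end

section
variable {n : ℕ} {R S : Type} [CommRing R] [CommRing S]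

theorem map_dd (e : R →+* S) (β : Fin n → ℕ) (φ : MvPolynomial (Fin n) R) :
    MvPolynomial.map e (dd β φ) = dd β (MvPolynomial.map e φ) := by
  induction φ using MvPolynomial.induction_on' with
  | monomial w c =>
    rw [map_monomial, dd_mon, dd_mon, smul_monomial, smul_monomial, map_monomial, smul_eq_mul,
      smul_eq_mul, map_mul, map_prod]
    simp only [map_natCast]
  | add p q hp hq => rw [map_add, map_add, hp, hq, map_add, map_add]

theorem map_actR (e : R →+* S) (t : R) (φ : MvPolynomial (Fin n) R) (P : MvPolynomial (Sy n) R) :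
    MvPolynomial.map e (actR t φ P) = actR (e t) (MvPolynomial.map e φ) (MvPolynomial.map e P) := by
  induction P using MvPolynomial.induction_on' with
  | monomial m c =>
    rw [map_monomial, actR_mon, actR_mon, smul_eq_C_mul, smul_eq_C_mul, smul_eq_C_mul,
      smul_eq_C_mul, map_mul, map_mul, map_mul, map_C, map_C, map_pow, map_dd, map_prod]
    simp only [map_pow, map_X]
  | add p q hp hq => rw [map_add, map_add, hp, hq, map_add, map_add]

theorem map_sy (e : R →+* S) (w : Polynomial (MvPolynomial (Fin n) R)) :
    MvPolynomial.map e (sy w) = sy (w.map (MvPolynomial.map e)) := by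
  have h : (MvPolynomial.map e).comp (sy : Polynomial (MvPolynomial (Fin n) R) →+* _) =
      (sy : Polynomial (MvPolynomial (Fin n) S) →+* _).comp
        (Polynomial.mapRingHom (MvPolynomial.map e)) := by
    refine Polynomial.ringHom_ext' ?_ ?_
    · refine RingHom.ext fun a => ?_
      simp only [RingHom.comp_apply, sy, Polynomial.coe_eval₂RingHom, Polynomial.eval₂_C,
        Polynomial.coe_mapRingHom, Polynomial.map_C]
      exact map_rename e _ a
    · simp only [RingHom.comp_apply, sy, Polynomial.coe_eval₂RingHom, Polynomial.eval₂_X,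
        Polynomial.coe_mapRingHom, Polynomial.map_X, map_X]
  exact congrArg (fun f : Polynomial (MvPolynomial (Fin n) R) →+* MvPolynomial (Sy n) S => f w) h

end

theorem a3 : TaskA3 := by
  intro n R _
  refine ⟨⟨(shf n R 1).toLinearMap, fun P s φ => ?_⟩, ⟨(shf n R (-1)).toLinearMap,
    fun P s φ => ?_⟩, fun {S} _ e P s φ => ?_, act_sy, fun {S} _ e w hw => ?_⟩
  · rw [act_eq, act_eq]
    change actR (s : R) φ (shf n R 1 P) = _
    rw [actR_shf, Nat.cast_add, Nat.cast_one]
  · rw [act_eq, act_eq]
    change actR ((s + 1 : ℕ) : R) φ (shf n R (-1) P) = _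
    rw [actR_shf, Nat.cast_add, Nat.cast_one, add_neg_cancel_right]
  · rw [act_eq, act_eq, map_actR, map_natCast]
  · rw [map_sy, hw, map_zero]

end Pool.Agent.W366.GN
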